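import Mathlib
import Pool.Agent.H926.T.Sat7

/-!
# The motivic Sato–Tate conjecture for the abelian varieties built from factors of one of dimension at
# most seven

Let `X` be an abelian variety of any dimension over a subfield `k` of `ℂ` which is finitely generated
over `ℚ`. We assume that there is a complex abelian variety `A` of dimension at most seven such that
each simple factor of `X` over `ℂ` (each simple abelian variety with a homomorphism to `X` with finite
kernel) is a factor of `A`. For instance `X` can be any form of any product of powers of the factors of
`A`. There is one condition: no simple factor of `A` of dimension four or six has `ℤ` as its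
endomorphism ring.

**Theorem.** For all prime numbers `ℓ`, for all finite extensions `k'` of `k` (the fixed fields of the
subgroups `Δ` of finite index of the Galois group `Γ` of `k`) and `M = h^1(X)`

* the motivic Tate conjecture holds for `M`: the `ℓ`-adic monodromy group `G_{ℓ,k'}(M)` is the motivic
  Galois group `𝒢_{k'}(M)` over `ℚ_ℓ`;
* **the motivic Sato–Tate conjecture holds for `M`:** `G_{1,ℓ,k'}(M) = 𝒢_{1,k'}(M)`.

All components are included, and the equalities are equalities of group schemes: for the groups of the
points with values in any commutative `ℚ_ℓ`-algebra `R`.

The groups (`Pool.Agent.Q43.ST.Defs`) are defined by tensors. `monodromy` is the group of the pairs of an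
automorphism `u` of `R ⊗ V`, `V = ℚ_ℓ ⊗ H_1(X, ℚ)`, and its factor `c` on the Tate motive which fix all
elements of the spaces `(V*)^{⊗ 2 m}(m)` that are fixed by the Galois group of `k'` (the tannakian
definition of the problem; the representation is semisimple by Faltings, and the tensors of weight zero
are of this form by the Weil pairing). `motivic` is the group of those which fix the motivic classes over
`k'`: by Deligne's theorem the motivic (absolute Hodge) classes over `k'` are the Hodge classes, the
`ℓ`-adic realizations of which are fixed by the Galois group of `k'`. `multiplierKernel` is the group of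
the `u` with `c = 1`.

The hypotheses on the Galois representation are the known properties of the Tate module
(`IsTateModule`: Weil pairing, Faltings, Hodge–Tate decomposition, Serre, Pink) and the theorem of
Deligne that the Galois group transforms Hodge classes into Hodge classes (`GaloisActsOnHodge`).

The proof. All Tate tensors are combinations of Hodge tensors
(`Pool.Agent.H926.T.mt7`, see `MP_b8862a_ag.FactorsOfDimensionSeven`): the Lie algebra generated by the
Hodge–Tate elements has the same commutant and the same invariant tensors as that of the Hodge group. So
the tensors fixed by `Δ` are fixed combinations of Hodge tensors, and by Deligne's theorem they are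
combinations of fixed Hodge tensors (Galois descent, library).
-/

namespace Pool.Agent.Results.MP_d61fbb_ag.FactorsOfDimensionSeven

open Module TensorProduct
open Pool.Agent.Y90 (AV)
open Pool.Agent.Y90.St (IsHom IsPolarization)
open Pool.Agent.R915 (IsFactor)
open Pool.Agent.Y224.TS.St (IsTateModule)
open Pool.Agent.Q43.ST (GaloisActsOnHodge monodromy motivic multiplierKernel)

/-- All factors of `A` of dimensions four and six have endomorphisms besides the scalars. -/
def NoTrivialEndomorphisms (A : AV) : Prop :=
  ∀ Y, IsFactor Y A → finrank ℂ Y.T = 4 ∨ finrank ℂ Y.T = 6 →
    ∃ f, IsHom Y.per Y.per f ∧ ∀ c : ℚ, f ≠ c • 1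

/-- **The motivic Tate conjecture and the motivic Sato–Tate conjecture**, with all components, for
`h^1(X)`, for the abelian varieties `X` over finitely generated fields, all of whose simple factors over
`ℂ` are factors of a complex abelian variety `A` of dimension at most seven without simple factors of
dimension four or six with only the trivial endomorphisms. -/
theorem result (A : AV) (h7 : finrank ℂ A.T ≤ 7) (hA : NoTrivialEndomorphisms A)
    (X : AV) (hX : ∀ Y, IsFactor Y X → IsFactor Y A)
    (E : X.H → X.H → ℚ) (hE : IsPolarization X.per E)
    (ℓ : ℕ) [Fact ℓ.Prime] [Algebra ℚ_[ℓ] ℂ] [Algebra.IsAlgebraic ℚ_[ℓ] ℂ]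
    {Γ : Type} [Group Γ] (ρ : Representation ℚ_[ℓ] Γ (ℚ_[ℓ] ⊗[ℚ] X.H)) (χ : Γ →* ℚ_[ℓ])
    (hρ : IsTateModule X.per E ρ χ) (hD : GaloisActsOnHodge X.per ρ χ)
    (Δ : Subgroup Γ) (hΔ : Δ.FiniteIndex) (R : Type) [CommRing R] [Algebra ℚ_[ℓ] R] :
    monodromy ρ χ Δ R = motivic X.per ρ χ Δ R ∧
      multiplierKernel (monodromy ρ χ Δ R) = multiplierKernel (motivic X.per ρ χ Δ R) :=
  Pool.Agent.H926.T.st7 A X h7 hA hX hE hρ hD Δ hΔ R

end Pool.Agent.Results.MP_d61fbb_ag.FactorsOfDimensionSeven
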