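import Pool.Agent.H851.KS.Pub

/-!
# Abelian varieties smaller than the Kuga-Satake variety are independent of a motive of K3 type

Let `V` be the `ℓ`-adic realization of a motive `M` of K3 type over a number field `K`, for example `H^2(X, ℚ_ℓ)` for
a K3 surface, or for any smooth projective variety with `h^{2,0} = 1`, semisimple, with scalar Tate
endomorphisms on the transcendental part `T`, of dimension `d ≥ 3`, `d ≠ 4`. The Lie algebra of the `ℓ`-adic
monodromy group of `M(1)` is `so(T)`. A motive `N` with weights `0` and `1` in which `so(T)` occurs contains
a spin representation, of dimension at least `2 ^ ((d - 1) / 2)`: the Kuga-Satake variety of `M`, if it exists, is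
such a motive. This file proves that there is no other obstruction to the independence of `M` and `N`, on the level
of Galois representations, without using or constructing the Kuga-Satake variety.

Let `W` be a semisimple representation of the Galois group of `K` over `ℚ_ℓ`, with a chain of subspaces
stable under an open subgroup `Δ`, such that each piece is of weight one up to a Tate twist, of dimension
`e < 2 ^ ((d - 1) / 2)`, or small (`2 e ^ 2 ≤ d (d - 1)`), or potentially abelian. A piece is of weight one
if at almost all places of degree one whose Frobenius element is in `Δ` the Frobenius element (times `p ^ j`,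
with a fixed `j`) is a zero of a monic polynomial with integral coefficients whose roots have the absolute
value `√p`. This holds for `H^1(A, ℚ_ℓ)` for all abelian varieties `A` over `K`, with the decomposition over the
algebraic closure; the bound `e < 2 ^ ((d - 1) / 2)` holds for all pieces if `2 dim B < 2 ^ ((d - 1) / 2)` for
the simple factors `B` of `A`. For a K3 surface with Picard number one `d = 21`, and all abelian varieties `A` whose
simple factors over the algebraic closure have dimension at most `511` are allowed. (The bound is sharp: the
simple factors of the Kuga-Satake variety have dimension `512` if the even Clifford algebra splits.) It also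
holds for `H^3` of cubic threefolds and of Fano threefolds, `H^5` of varieties with a
Hodge structure of level one, etc.

**Theorem.** (1) For all elements `X` of the Lie algebra of `M(1)`, the operator `(X, 0)` kills all Tate tensors of
`V(1) ⊕ W` and preserves all subspaces of `V(1) ⊕ W` which are stable under a subgroup of finite index.

(2) Every form on `V(1) ^ A × W ^ B` which is invariant under an open subgroup is a linear combination of
products of forms on `V(1) ^ A` and forms on `W ^ B` which are invariant under open subgroups.

So the Tate classes in all tensor constructions of `M ⊕ N` come from `M` and from `N`, and the motivic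
Tate conjecture for `M ⊕ N` is equivalent to the conjunction of those for `M` and for `N`; the monodromy
group of `M(1) ⊕ N` contains `SO(T) × 1`. For example there are no nonzero classes in
`H^2(X, ℚ_ℓ)_{trans} ⊗ H^1(A)^{⊗ 2 k}`, in particular the Kuga-Satake correspondence does not
exist for these `A`.

The proof. Let `L` be the Lie algebra of `V(1) ⊕ W`. By semisimplicity and nondegeneracy of the trace form
the ideal of the elements of `L` which kill `V` has a complement `𝔰`, which is isomorphic to `so(T)`, and it is
a direct factor. Take a place of degree one in `Δ` where `V` is ordinary, and an embedding of the algebraic numbers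
into the algebraic closure of `ℚ_p`; the valuations of the eigenvalues of Frobenius give an element `N` of `L` over
the algebraic closure of `ℚ_ℓ` (the operators with these eigenvalues kill the tensors which Frobenius fixes, by
the theorem of Chevalley on replicas). On `V(1)` it has the eigenvalues `1, -1` (simple) and `0`, and on a piece of
weight one the eigenvalues are in an interval of length one, as the eigenvalues of Frobenius and
their complex conjugates are algebraic integers. Let `v, v'` be eigenvectors of `N` in `V(1)` for `1, -1`, and `u_i` an
orthogonal basis of their orthogonal complement in `T`. The elements `e_i, f_i` of `𝔰` which correspond to `v ∧ u_i`,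
`v' ∧ u_i` satisfy `[N, e_i] = e_i`, `[N, f_i] = -f_i`, so on a piece of weight one `e_i e_j = 0 = f_i f_j`. It
follows that the operators `e_i + c_i f_i` generate a Clifford algebra in `d - 2` variables on the piece, or the
piece is killed by `𝔰`; in the first case its dimension is at least `2 ^ ((d - 1) / 2)`. So `𝔰` kills all
pieces of weight one; the other pieces are treated as in `Pool.Agent.Results.MP_bbcdf5_ag.SmallPieces`.

The facts on `V` which are used are collected in the structure `IsK3Type`, see
`Pool.Agent.Results.MP_b8862a_ag.KThreeEndomorphisms`: at almost all primes `p` and places of degree one above `p` the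
characteristic polynomial of the Frobenius element is monic with integral coefficients, with zeros of absolute
value `p` (Weil conjectures), and its Newton polygon lies above the Hodge polygon (Mazur, Berthelot, Ogus). The
matrix `tw χ ρ g = χ(g)⁻¹ ρ(g)` is the action on `V(1)`, as `χ` is the inverse of the cyclotomic character.
-/

set_option autoImplicit false

namespace Pool.Agent.Results.MP_d61fbb_ag.KugaSatakeBound

open Polynomial NumberField IsDedekindDomain Module
open Pool.Agent.H851.K3
open Pool.Agent.H851.TT (ScalarEnds)
open Pool.Agent.H851.IN (Splits MixInv prodForms)
open Pool.Agent.H851.KS (BoundedPieces)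
open Pool.Agent.NH56.HY (GK tw)

/-- **Kuga-Satake varieties are the only obstruction.** `ρ` is the action of the Galois group of `K` on
`V = ℚ_ℓ ^ n`, `q` the form, `χ` the inverse of the cyclotomic character, `σ` the action on `W = ℚ_ℓ ^ m`. (1) is
`Splits`. A form on `V ^ A × W ^ B` is given by its coordinates. -/
theorem result {K : Type} [Field K] [NumberField K] {ℓ : ℕ} [Fact ℓ.Prime] {n : Type} [Fintype n]
    [DecidableEq n] {q : Matrix n n ℚ_[ℓ]} {S : Finset ℕ} {χ : GK K →* ℚ_[ℓ]}
    {Pol : HeightOneSpectrum (𝓞 K) → ℤ[X]} {ρ : GK K →* Matrix n n ℚ_[ℓ]}
    (h : IsK3Type q S χ Pol ρ) (hss : Semisimple ρ) (hsc : ScalarEnds q χ ρ) (d : ℕ)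
    (hd : finrank ℚ_[ℓ] (orth q (tate χ ρ)) = d) (hd3 : 3 ≤ d) (hd4 : d ≠ 4) {m : Type}
    [Fintype m] [DecidableEq m] (σ : GK K →* Matrix m m ℚ_[ℓ]) (hσs : Semisimple σ)
    (hσ : BoundedPieces d σ) :
    Splits χ ρ σ ∧
    ∀ (A B : Type) [Fintype A] [DecidableEq A] [Fintype B] [DecidableEq B]
      (F : (A → n) → (B → m) → ℚ_[ℓ]), MixInv (tw χ ρ) σ F → F ∈ prodForms (tw χ ρ) σ A B := by
  subst hd
  have h1 : Splits χ ρ σ := Pool.Agent.H851.KS.splits_of_bounded h hss hsc hd3 hd4 hσs hσ
  exact ⟨h1, fun A B _ _ _ _ F hF => Pool.Agent.H851.IN.mix_main h hss h1 hF⟩

end Pool.Agent.Results.MP_d61fbb_ag.KugaSatakeBound
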