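import Mathlib
import Pool.Agent.H395.Local.Main
import Pool.Graph.R_pool_sql_team_seeded_3997aac3.Q29.GS.SatoTate

/-!
# The motivic Sato-Tate conjecture for abelian varieties with one Frobenius element which
satisfies local conditions on the classes of the embeddings of the CM fields

**Classes.** Let `K i` (`i` in a finite set) be CM fields, `X` the set of all complex embeddings
of all fields `K i` and `x ↦ x̄` the complex conjugation. Two elements `x`, `y` of `X` are
*flipped* if some automorphism of `ℂ` maps one of them to itself and the other one to its
conjugate, or maps `x` to `y` and `y` to `x̄`. The classes are those of the equivalence relation
generated by the pairs which are not flipped (`SameClass`); a class is stable under the complex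
conjugation. For the typical family of CM fields each class is a pair `x`, `x̄`. The fields of the
family are arbitrary: fields which are not independent of each other can have embeddings in the
same class.

**Types.** Let `p` be a prime number, `π i` a Weil number in `K i` all powers of which generate `K
i`. For `x : K i → ℂ` let `q(x)` be twice the difference of the slope of `x(π i)` and the middle
slope (`IsDeviation`). Suppose that every field `K i` has **one** embedding whose class is of one
of the following types (`LocalType`, `LocalTypes`); the type may depend on `i`.

* *Dominated*: for each field with an embedding in the class there is an embedding `z` of this
  field such that `2 |q(z)| > ∑ |q(w)|`, the sum over the `w ≠ z, z̄` **in the class of `z`**, not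
  over all embeddings; or, for some prime number `ℓ`, such that `|q(z)|_ℓ > |q(w)|_ℓ` for these
  `w`. Here one can use arbitrary positive weights of the fields (`DominatedType`).
* *Unitary*: the class consists of translates of `x`, it is the union of a block `R` and of its
  conjugate, `R` has `r ^ k` elements, `r` a prime number, `∑ q ≠ 0` over `R`, and `q = α n + β`
  on `R` with integers `n` whose sum over `R` is not divisible by `r` (`UnitaryType`).
* *Primitive*: the class consists of translates of `x` and has `b` pairs, where `b` is one, or
  prime, or `b = [K i : F]` for a CM subfield `F` such that the automorphisms of `ℂ` act doubly
  transitively on the extensions of an embedding of `F`; and for the CM subfields `F` with `[K i :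
  F] = b` the norm of `π i` to `F` is not supersingular (`PrimitiveType`).
* *Irreducible*: the rational functions on the class which change their sign under complex
  conjugation are an irreducible representation of the automorphisms of `ℂ` which preserve the
  class (`IrreducibleType`).
* Two types that are copied from the library, `OddType` (the class has one pair, a prime number of
  pairs, an odd number of pairs which are permuted doubly transitively, or a power of two and an
  odd permutation; the deviations are odd multiples of one number) and `SumType` (the class has `r
  ^ k` pairs, `r` prime, and the `q(w)` are proportional to integers whose sums over the half
  systems of the class are not divisible by `r`).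

**The theorem** (`SatoTate`, library). Let `A` be an abelian variety over a finitely generated
subfield `k` of the complex numbers, of any dimension and with arbitrary endomorphisms, which has
good reduction at some place with `p ^ a` elements in the residue field. Suppose that the
characteristic polynomial of the Frobenius element `γ` at this **one** place is the product of the
minimal polynomials of Weil numbers `π i` for `p ^ a` in `K i` which satisfy the hypothesis
`LocalTypes` (so `dim A` is the sum of the numbers `[K i : ℚ] / 2`). Then, for all prime numbers
`ℓ` and all finite extensions `k'` of `k` (the fixed fields of the subgroups `Δ` of finite index
of the Galois group) and `M = h^1(A)`,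

* the motivic Tate conjecture holds for `M`: the `ℓ`-adic monodromy group `G_{ℓ,k'}(M)` is the
  motivic Galois group `𝒢_{k'}(M)` (over `ℚ_ℓ`);
* **the motivic Sato-Tate conjecture (Q1) holds for `M`:** `G_{1,ℓ,k'}(M) = 𝒢_{1,k'}(M)`, all
  components included.

The equality is an equality of group schemes: for the groups of the points with values in any
commutative `ℚ_ℓ`-algebra `R`. Both groups are defined by tensors. `G_{ℓ,k'}(M)` is the group of
the automorphisms `u` of `R ⊗ V`, with a factor `c` for the Tate motive, which fix all Galois
invariant elements of the spaces `(V*)^{⊗ 2 m}(m)` (`monodromy`; this is the tannakian definition
in the problem, since the representation is semisimple by the theorem of Faltings and the tensors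
without weight are of this form by the Weil pairing). `𝒢_{k'}(M)` is the group of the
automorphisms which fix the motivic classes (absolute Hodge classes) over `k'`, which by Deligne's
theorem are the Hodge classes whose `ℓ`-adic realization is Galois invariant (`motivic`). The
kernel of the multiplier is the group of the `u` with `c = 1`. `H` is `H_1(A, ℚ)`, `T` the tangent
space at the origin, `per : H → T` the inclusion; `ρ`, `χ`, `ω` are the Galois representation on
the Tate module `ℚ_ℓ ⊗ H`, the cyclotomic character and the Weil pairing (`IsAbelianVariety`; this
contains the theorems of Faltings, the theorem of Deligne and the theorem on centres of Vasiu,
Ullmo and Yafaev); `GaloisActsOnHodge` is the full theorem of Deligne: the Galois group transforms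
Hodge classes into Hodge classes.

**What was known.** The Mumford-Tate conjecture is known for abelian varieties of prime dimension
and `End = ℤ`, for the dimensions which are not exceptional and `End = ℤ` (Serre, Pink), for
abelian varieties of CM type, and under conditions on the endomorphisms or on the reductions; the
library has the abelian varieties with Frobenius tori of large rank (`LargeFrobeniusTorus`),
almost all slope types of typical CM fields (`TypicalFields`, with the definition `SatoTate` used
here) and Frobenius elements over fields with many prime or doubly transitive degrees. New here:
the dominated types (inside of a class, usual or `ℓ`-adic absolute value, with weights), the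
unitary type, the primitive and irreducible types for the classes defined by flips, and their
combination for arbitrary families of fields, which need not be independent of each other.

**Examples** (proved in `Pool.Agent.H395.Local.criteria`). For a single CM field `E` and a Weil
number `π` of weight `m` all powers of which generate `E` the hypothesis `LocalTypes` is satisfied
if `4 |s(ψ) - m / 2| > ∑ |s(φ) - m / 2|` for one embedding `ψ`, the sum over all embeddings, `s`
the slope; and also if `E` contains an imaginary quadratic field `F` such that `[E : F] = r ^ k`
is a power of a prime number `r`, and `π` is ordinary and the number `s` of the embeddings which
agree with one embedding on `F` and at which `π` is a unit is not divisible by `r`, `2 s ≠ r ^ k`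
(multiplication by `F` of signature `(s, r ^ k - s)`).

**The proof.** A multiplicative relation between the conjugates of the `π i` gives a function `c`
on `X` with integral values, `c(x̄) = - c(x)` and `∑ c(x) q(τ x) = 0` for all `τ`. The correlation
of two flipped elements vanishes, so that the sum can be restricted to any class (library). One
has to show that `c = 0` on the class. Dominated type: one moves an element of the class (and of
its translates) where `|c| / t` has its largest value, for the usual or the `ℓ`-adic absolute
value, to the element `z`, and compares the absolute values of the terms. Unitary type: since `∑ q
≠ 0` over `R`, the sum of the values of `c` over `R` is zero, and so `∑ c(x) n(τ x) = 0` for all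
`τ` which preserve `R`. If the lattice of these `c` is not zero it contains an element which is
not divisible by `r` and is invariant modulo `r` under a Sylow `r`-subgroup of the group on `R`;
this subgroup is transitive on `R`, hence `c` is constant modulo `r` and `r ∣ ∑ n`. Primitive
type: if `b` is prime, an element of a Sylow subgroup has two orbits of length `b` on the class,
exchanged by the conjugation, and the cyclotomic polynomial is irreducible. So either all
translates of `q` agree at two different elements of the class, and then a power of `π i` does not
generate `K i`; or the sums of `q` over the translates of the orbit are zero, the orbit is a block
that belongs to a CM subfield `F` with `[K i : F] = b`, and the norm of `π i` to `F` is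
supersingular (Kronecker). The doubly transitive case is similar. Irreducible type: clear, as `q`
does not vanish on all translates.

If there are no relations between the `π i` then the Frobenius torus of `γ` has the maximal rank
`dim A + 1`, and all Tate classes on the powers of `A` are combinations of Hodge classes
(library). Then the two groups are equal by Galois descent (library, helper43).
-/

set_option autoImplicit false

namespace Pool.Agent.Results.MP_d61fbb_ag.LocalClassTypes

open NumberField Module Pool.Agent.H395.Local

/-- **The motivic Sato-Tate conjecture for the abelian varieties with one Frobenius element whose
eigenvalues have classes of local types.** -/
theorem result (p : ℕ) [Fact p.Prime] (a : ℕ) (I : Type) [Fintype I] (K : I → Type)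
    [∀ i, Field (K i)] [∀ i, NumberField (K i)] [∀ i, IsCMField (K i)] (π : ∀ i, K i)
    (hint : ∀ i, IsIntegral ℤ (π i))
    (hw : ∀ i, π i * IsCMField.complexConj (K i) (π i) = (p : K i) ^ a)
    (hloc : LocalTypes p (fun _ => a) π) : Pool.Agent.Q29.GS.SatoTate (p ^ a) K π :=
  Pool.Agent.Q29.GS.satoTate (pow_pos (Fact.out : p.Prime).pos a)
    (fun i => by rw [hw i, Nat.cast_pow]) (angle hint hw hloc)

end Pool.Agent.Results.MP_d61fbb_ag.LocalClassTypes
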