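import Mathlib
import Pool.Agent.H298.Core.MotMain
import Pool.Agent.H298.Core.Double

/-!
# The motivic Sato-Tate conjecture for the sums of arbitrary motives with abelian varieties which
have one Frobenius element in CM fields with irreducible odd part or primitive core

**In short.** Let `K` be a CM field of degree `2 g`, `K₀` its maximal real subfield and `2 ^ v`, `1
≤ v ≤ g`, the degree of the Galois closure of `K` over the Galois closure of `K₀` (typically `v =
g`). The theorem is for the Weil numbers `π` all powers of which generate `K`, in the following
cases (`FieldCriteria`), among others: **(a) `v > g / 3`; (b) the slopes of `π` have odd
denominators, for example `π` is ordinary, and `v > g / 4`, or `g` is the product of two prime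
numbers and `v > 1`, or `g` is prime, or `K` has few divisors in the sense of `FewDivisors`; (c) the
Galois group of `K₀` is doubly transitive, and `g` is odd, or `g - 1` is a prime number, or at least
`g` is none of the numbers `10, 16, 26, 28, 36, …` (`TwoGraphDegree`); or it is triply transitive,
for example the symmetric group, or the alternating group if `g ≥ 5`, `g ≥ 3`; and no norm of `π` to
an imaginary quadratic field is supersingular** (this is
so if `g` is odd and `π` is ordinary). The general hypothesis (`IsCoreWeil`) is explained below.

**Cores.** Let `X` be the set of the complex embeddings of the CM field `K`, `[K : ℚ] = 2 g`. The
automorphisms of `ℂ` which map all elements of `X` to themselves or to their complex conjugates are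
called sign changes. The first core of `φ : X` consists of the `ψ : X` which are moved by the same
sign changes as `φ`. If one uses all automorphisms which map the elements of the first core to
themselves or to their conjugates, one obtains the second core, inside of the first one, and so on
(`coreOf`). The cores of the same index have the same number `2 c` of elements, `c` divides `g`, and
the smallest such number `c` is the core number of `K`. It satisfies `c ≤ g / v`, and if a prime
number `q` divides the discriminant of `K`, but not the discriminant of the maximal real subfield,
then `q ^ c` divides the discriminant of `K`. `FewDivisors` says that all divisors of `g` which
satisfy these conditions are one or prime.

**The abelian varieties.** Let `A` be an abelian variety over a finitely generated subfield `k` of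
the complex numbers (for instance a number field), of any dimension and with arbitrary
endomorphisms. Suppose that at **one** place of good reduction, with a residue field of `q = p ^ a`
elements, the characteristic polynomial of the Frobenius element `γ` on the Tate module is the
product of the minimal polynomials of Weil numbers `π i` (`i` in a finite set) such that each power
`(π i) ^ n`, `n ≥ 1`, generates a CM field `K i`, and for each `K = K i` one of the following
conditions holds (`IsCoreWeil`).

* The rational functions on `X` which change their sign under complex conjugation are an irreducible
  representation of the automorphisms of `ℂ` (`OddIrreducible`), for example because the core number
  of `K` is one.
* There is a core with `c` pairs of embeddings, and `c` is a prime number, or `c = [K : F]` for a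
  subfield `F`, not totally real, such that the automorphisms of `ℂ` act doubly transitively on the
  extensions to `K` of an embedding of `F` (`PrimitiveCore`); and there is **no** subfield `F` with
  `[K : F] = c`, not totally real, in which the norm `N` of `π i` is supersingular
  (`SupersingularNorm`; this means that `N ^ 2 / q ^ c` is a root of unity).

The condition on the norms in the second case is necessary and sufficient for the absence of
relations between the conjugates of `π i` (`NormCriteria`); it is satisfied if `c = 2`, if `c` is
odd and the slopes of `π i` have odd denominators (for example in the ordinary case), and if all
subfields `F` with `[K : F] = c` are totally real. There are no other conditions on `π i`, its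
slopes, the decomposition of `p` in `K i`, the degree or the Galois group of `K i`. The fields `K i`
are pairwise independent (`PairwiseIndep`; no condition if there is only one field). So the
condition on `A` can be read off from one characteristic polynomial of Frobenius.

**The motives `N`.** Let `N` be **any** motive over `k`, pure of the same weight, for instance `h ^
(2 m + 1)(X)(m)` for a smooth projective variety `X`. The condition on `N` is: `γ` is killed on the
`ℓ`-adic realization of `N` by a rational polynomial `f ≠ 0` (by the Weil conjectures one can take a
power of the characteristic polynomial) all of whose complex roots are products of algebraic
numbers, any number of them, each of which is unrelated to all the fields `K i`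
(`IsProductOfUnrelated`). Here `α` is unrelated to `K` (`UnrelatedTo`) if a rational function on the
complex embeddings of `K` which changes its sign under complex conjugation and is invariant under
all automorphisms of `ℂ` that fix a power of `α` is zero. This is so if a power of `α` is in a
totally real field, or in a number field `F` from which `K` is separated by a prime number (see
below); nothing is assumed about the motivic Galois group or the semisimplicity of `N`.

**The motivic Galois groups.** Let `H` be the group of the `ℚ_ℓ`-points of the motivic Galois group
of `M = h ^ 1(A) ⊕ N` (for absolute Hodge cycles, or in the sense of André), with its identity
component `H₀`, its actions `R` on `V = V_ℓ(A)` and `T` on the realization of `N`, the character `ν`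
(the multiplier on a polarization form) and the homomorphism `i : Γ → H` from the Galois group
(`IsMotivicSum`). By the theorem of Faltings the Tate classes of degree two on `A × A` are classes
of divisors, which are fixed by `H₀` (hypothesis `degreeTwo`). Let `Δ` be a subgroup of finite index
of `Γ`, `k'` its fixed field. The motivic Galois group over `k'` is the union of the components
`i(g) H₀`, `g ∈ Δ` (`Belongs`). The group `G_{1,ℓ,k'}(M)` is the kernel of `χ` on the `ℓ`-adic
monodromy group over `k'`, and `𝒢_{1,k'}(M)` is the kernel of `ν` on the motivic Galois group. The
tensors fixed by `G_{1,ℓ,k'}(M)` are the sums of tensors on which `Δ` acts by powers `χ ^ j`. As the
groups are reductive, the motivic Sato-Tate conjecture over `k'` says that the elements of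
`𝒢_{1,k'}(M)` fix all these tensors (`SatoTateOver`; the dual spaces are contained in tensor powers
up to twists by the polarization). The same statement for the kernel of `ν` in the identity
component is `SatoTateConnected`, and `TateOver` is the motivic Tate conjecture, for the groups
themselves.

**The theorem** (`SatoTateSum`), for all prime numbers `ℓ`. (1) **The motivic Sato-Tate conjecture
holds for `h ^ 1(A)`** over all finite extensions `k'` of `k`, for the full kernels with all their
components. (2) For the kernels in the identity components it holds for `h ^ 1(A) ⊕ N` if and only
if it holds for `N`. (3) If the motivic Tate conjecture (which is equivalent to the motivic
Sato-Tate conjecture for all motives) holds for `N` over all finite extensions, then the motivic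
Sato-Tate conjecture holds for `h ^ 1(A) ⊕ N` over all finite extensions `k'` of `k`, for the full
kernels.

The criteria (`AllCriteria`, `UnrelatedCriteria`) are the cases (a), (b) and (c) above
(`FieldCriteria`, `DoublyCriteria`), the facts about the cores (`CoreFacts`) and about the norms (`NormCriteria`), the
independence of the fields, and the unrelated numbers. A prime number `ℓ` separates `K i` from a
number field `F` if `ℓ` divides the discriminant of `K i` but not the one of its maximal real
subfield and not the one of `F`. The fields `K i` are pairwise independent if any two of them are
separated by a prime number (in one direction). All nonzero elements of `F` are unrelated to the `K
i` if all `K i` are separated from `F`. For example, if `ℓ` divides the discriminant of a CM field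
`K` and `ℓ ^ 2` does not, then the theorem holds for all `A` with one Frobenius element given by a
Weil number `π` in `K` with `ℚ(π ^ n) = K` for all `n`.

**What was known.** The equivalent Mumford-Tate conjecture is known for abelian varieties of prime
dimension, with complex multiplication, for generic Galois groups of one Frobenius polynomial
(Zarhin), and for sums of abelian motives for which it holds (Vasiu, Commelin). In the library: sums
with arbitrary motives for abelian varieties without factors of type IV with local conditions
(`SumsWithAnyMotive`), and abelian varieties with a Frobenius element of almost all slope types
(`TypicalFields`). New here are the CM fields with primitive cores, in all dimensions, with a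
condition on the norms which is necessary and sufficient, and the sums with arbitrary motives for
them.

**The proof.** It is sufficient to show for each field `K` that the function `w`, the slope of `φ
(π)` minus one half, on the set `X` is not orthogonal to a nonzero space of odd functions which is
stable under the automorphisms of `ℂ`. If the odd functions are irreducible this is clear. Let `r`
be an element of such a space with integral values. By the sign changes one can cut `r` down; this
gives, by induction on the size of the support and on the index of the core, a relation which is
supported in one core. The automorphisms preserving the core act transitively on it. If it has `2 c`
elements with a prime number `c`, then a Sylow subgroup contains an element which has two orbits of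
length `c` on the core, exchanged by the complex conjugation. Since the cyclotomic polynomial is
irreducible, either `w (τ φ) = w (τ φ')` for all `τ` with two different `φ`, `φ'` of the core, or
the sums of `w` over the translates of one orbit are zero, and the orbit consists of the extensions
of an embedding of a subfield `F` with `[K : F] = c`, which is not totally real. In the doubly
transitive case the extensions of an embedding of `F` are one half of the core (a sign change moves
all of them or none), and an average over a stabilizer gives the same two alternatives. In the first
case `φ (π)` and `φ' (π)` have the same absolute values at all places of all conjugates, so they
differ by a root of unity, and a power of `π` does not generate `K`. In the second case the norm of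
`π` in `F` is supersingular. Conversely a supersingular norm is a relation, by Kronecker's theorem.
For the cases (a), (b) and (c) one uses that a sign change is determined by the first cores which it
moves, so that `2 ^ v ≤ 2 ^ (g / c)`, and that for a triply transitive group either the odd
functions are irreducible or the signs are given by a character of the group, so that `K` contains
an imaginary quadratic field. If the group is doubly transitive, let `V` be a space of odd functions
which is stable under the automorphisms, neither zero nor everything. The values of its reproducing
kernel at two embeddings in different pairs are `β` or `-β`, and `β ≠ 0`; the signs form a regular
two-graph on the `g` pairs, with the eigenvalues `r` on `V` and `-s` on the orthogonal space,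
`r s = g - 1`, `(r + s) dim V = g s`. If `g` is odd then `r` or `s` is even, and a descent modulo two
shows that the nonzero functions in one of the two spaces have no zeros; by the maximum principle
this is also true if `r` or `s` is `1` or `-1`. So this space has dimension one, and the signs of its
functions give an imaginary quadratic subfield. From the absence of relations one obtains the theorem with the methods
of the library (`SumsWithMotives`, `PrimeReduction`): a tensor on `V_ℓ(A) ^ {⊗ j} ⊗ N'`, `N'` a
tensor construction on `N`, which is fixed by a subgroup of finite index of the Galois group, is a
combination of products of Tate classes of degree two on `A` (divisor classes, by Faltings) and of
tensors of `N'`.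
-/

set_option autoImplicit false

namespace Pool.Agent.Results.MP_d61fbb_ag.SmallCoreFields

open NumberField Module Pool.Agent.H977R3.CM Pool.Agent.H298.Core

/-- **The motivic Sato-Tate conjecture for `h ^ 1(A)` and for the sums `h ^ 1(A) ⊕ N`, for all abelian
varieties `A` with one Frobenius element whose Weil numbers lie in independent CM fields with
irreducible odd part or primitive core, and all motives `N` unrelated to these fields.** -/
theorem result :
    (∀ (p : ℕ) [Fact p.Prime] (a : ℕ), 0 < a → ∀ (I : Type) [Fintype I] (K : I → Type)
      [∀ i, Field (K i)] [∀ i, NumberField (K i)] [∀ i, IsCMField (K i)], PairwiseIndep K →
      ∀ π : ∀ i, K i, (∀ i, IsCoreWeil p a (π i)) → SatoTateSum p a K π) ∧
    AllCriteria ∧ UnrelatedCriteria :=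
  ⟨fun _ _ _ ha _ _ _ _ _ _ hK _ hπ => satoTateSum_core ha hK hπ,
    allCriteria_hold, unrelatedCriteria_hold⟩

end Pool.Agent.Results.MP_d61fbb_ag.SmallCoreFields
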